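import Pool.Agent.T6.H33.HM.Example

/-!
# Higgs bundles in the Hitchin section over the plane without harmonic metric

Over `X = ℂ` the square root `K^(1/2)` of the canonical bundle has a frame `s` with `s² = dz`, and
`K_(X,n)` has the frame `s^(n-1), s^(n-3), ..., s^(1-n)`. A tuple of holomorphic differentials is
`q_j(z) dz^j`, `2 ≤ j ≤ n`, with entire functions `q_j`, and in this frame the Higgs field `θ(q)` is
`higgs n q z dz`. A Hermitian metric is given by its Gram matrix `H`, and `IsHarmonicMetric` says
that it is harmonic.

For every `n ≥ 3` we find `q ≠ 0` without harmonic metric, so the answer to Q1 is negative. The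
differentials are constant: `q_2 = dz²`, `q_n = t dz^n`, the others are zero, with `t` such that
`θ(q)` has a multiple eigenvalue. Then `θ(q) = A dz` with a constant matrix `A` which is not
semisimple. For a harmonic metric the function `s = |A|²_h` satisfies
`n³ (s Δ s - |∇ s|²) ≥ 4 s (s - L)²`, where `L` is the sum of the squares of the absolute values of
the eigenvalues of `A` (with multiplicity), and `s > L` everywhere. No function on the plane has
these properties, by the maximum principle.
-/

set_option autoImplicit false

namespace Pool.Agent.Results.MP_4f0bc7_gt.NoHarmonicMetric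

open Pool.Agent.T6.H33.HM

/-- **For every `n ≥ 3` there are holomorphic differentials `q = (q_2, ..., q_n) ≠ 0` on `ℂ` such
that the Higgs bundle `(K_(ℂ,n), θ(q))` in the Hitchin section admits no harmonic metric.** -/
theorem result (n : ℕ) (hn : 3 ≤ n) : ∃ q : ℕ → ℂ → ℂ,
    (∀ j, Differentiable ℂ (q j)) ∧ (∃ j, 2 ≤ j ∧ j ≤ n ∧ ∃ z, q j z ≠ 0) ∧
      ¬ ∃ H : ℂ → Matrix (Fin n) (Fin n) ℂ, IsHarmonicMetric (higgs n q) H :=
  counterexample n hn

end Pool.Agent.Results.MP_4f0bc7_gt.NoHarmonicMetric
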